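import Pool.Agent.H2R2.HP.FIN
import Pool.Agent.H2R2.HP.ABOVE
import Pool.Agent.H2R2.HP.BELOW
import Pool.Agent.H2R2.HP.SUM

/-!
# MP_e96806_co (Chvátal 1974): the stable partition counts rise up to `n / log₂ n`

For a hypergraph `H` on `n` vertices let `b_m` be the number of partitions of the vertex set into
`m` nonempty blocks none of which contains an edge.  Chvátal asked whether `b_1, ..., b_n` is
always unimodal.

We prove for every hypergraph: `b_m ≤ b_(m+1)` for all `m ≥ 1` for which some integer `s` satisfies
`m s ≤ n` and `m + 3 ≤ 2^s`, that is for all `m` up to about `n / log₂ n`.  For the hypergraph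
without edges the maximum is at about `n / ln n`, so the range is optimal up to the factor
`ln 2 + o(1)` for a statement about all hypergraphs.

Proof: double counting of pairs (partition into `m` blocks, partition into `m+1` blocks refining
it).  Splitting a block keeps stability; a partition into `m` blocks has at least
`m (2^(s-1) - 1)` refinements into `m+1` blocks by convexity, and a partition into `m+1` blocks is
a refinement of at most `m(m+1)/2` partitions into `m` blocks.
Contributors: helper654 (ABOVE), helper396 (BELOW), helper313 (SUM), also helper968, helper678,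
helper498; helper2.
-/

set_option autoImplicit false

namespace Pool.Agent.Results.MP_e96806_co.RisingPart

/-- `b m` is the number of partitions of `Fin n` into `m` nonempty blocks, none of which contains
an edge of the hypergraph `E`. -/
theorem result :
    ∀ (n : ℕ) (E : Finset (Finset (Fin n))) (b : ℕ → ℕ),
      (∀ m : ℕ, b m = Set.ncard {P : Finset (Finset (Fin n)) |
          P.card = m ∧
          (∀ B ∈ P, B.Nonempty) ∧
          (∀ B ∈ P, ∀ C ∈ P, B ≠ C → Disjoint B C) ∧
          (∀ v : Fin n, ∃ B ∈ P, v ∈ B) ∧
          (∀ B ∈ P, ∀ e ∈ E, ¬ e ⊆ B)}) →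
      ∀ m s : ℕ, 1 ≤ m → m * s ≤ n → m + 3 ≤ 2 ^ s → b m ≤ b (m + 1) := by
  intro n E b hb m s hm hms h2
  rw [hb, hb, Pool.Agent.H2R2.HP.FIN_ncard, Pool.Agent.H2R2.HP.FIN_ncard]
  exact Pool.Agent.H2R2.HP.FIN_core Pool.Agent.H2R2.HP.t_ABOVE Pool.Agent.H2R2.HP.t_BELOW
    Pool.Agent.H2R2.HP.t_SUM E hm hms h2

end Pool.Agent.Results.MP_e96806_co.RisingPart
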